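import Mathlib
import Pool.Agent.H84.DDefs
import Pool.Agent.H84.DProd

set_option autoImplicit false

namespace Pool.Agent.Results.MP_c8df5e_gt.Prod

open Pool.Agent.H84.DDefs

universe u

/-- The `d`-reflection preserves arbitrary products of T0 spaces. -/
theorem result {I : Type u} (X R : I → Type u) [∀ i, TopologicalSpace (X i)]
    [∀ i, T0Space (X i)] [∀ i, TopologicalSpace (R i)] (η : ∀ i, X i → R i)
    (hη : ∀ i, IsDReflection (η i))
    (Z : Type u) [TopologicalSpace Z] (μ : (∀ i, X i) → Z) (hμ : IsDReflection μ) :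
    ∃ e : Z ≃ₜ (∀ i, R i), ∀ x i, e (μ x) i = η i (x i) := by
  obtain ⟨e, he⟩ := H84.DProd.refl_unique hμ (H84.DProd.prod_refl hη)
  exact ⟨e, fun x i => congrFun (he x) i⟩

end Pool.Agent.Results.MP_c8df5e_gt.Prod
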